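import Pool.Agent.Helper949.Landau

/-!
# MP_ccd64a_nt: the integers outside `S` are rare

`p₁ = x(4yz-1) - yz`, `p₂ = x(4yz-z-1) - yz`, `p₃ = x(8y-3) - 6y + 2`, `p₄ = x² - x`, all variables
positive integers, and `S` is the set of their values. If `4q + 1` has a divisor `≡ 3 mod 4`, then
`q` is a value of `p₁`. The integers whose prime factors are all `≡ 1 mod 4` have counting function
`O(X / √(log X))` (Landau's bound, `Helper949.Landau.B_bound`).
-/

set_option autoImplicit false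

namespace Pool.Agent.Results.MP_ccd64a_nt.FewExceptions

def p1 (x y z : ℤ) : ℤ := x * (4 * y * z - 1) - y * z
def p2 (x y z : ℤ) : ℤ := x * (4 * y * z - z - 1) - y * z
def p3 (x y : ℤ) : ℤ := x * (8 * y - 3) - 6 * y + 2
def p4 (x : ℤ) : ℤ := x ^ 2 - x

/-- the union of the four value sets -/
def S : Set ℤ := {q | ∃ x y z : ℤ, 1 ≤ x ∧ 1 ≤ y ∧ 1 ≤ z ∧
  (q = p1 x y z ∨ q = p2 x y z ∨ q = p3 x y ∨ q = p4 x)}

/-- `q` with `1 ≤ q ≤ X` outside `S` -/
def exceptions (X : ℕ) : Set ℕ := {q | 1 ≤ q ∧ q ≤ X ∧ (q : ℤ) ∉ S}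

open Pool.Agent.Helper949.Landau

lemma mem_S_of_divisor {q d : ℕ} (hd : d ∣ 4 * q + 1) (h3 : d % 4 = 3) : (q : ℤ) ∈ S := by
  obtain ⟨m, hm⟩ := hd
  have hm4 : m % 4 = 3 := by
    have h : (d * m) % 4 = 1 := by omega
    rw [Nat.mul_mod, h3] at h
    have : m % 4 < 4 := Nat.mod_lt _ (by norm_num)
    interval_cases hh : m % 4 <;> simp_all
  obtain ⟨a, ha⟩ : ∃ a, d = 4 * a + 3 := ⟨d / 4, by omega⟩
  obtain ⟨b, hb⟩ : ∃ b, m = 4 * b + 3 := ⟨m / 4, by omega⟩
  refine ⟨a + 1, b + 1, 1, by omega, by omega, le_refl _, Or.inl ?_⟩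
  have h : ((4 * q + 1 : ℕ) : ℤ) = ((d * m : ℕ) : ℤ) := by rw [hm]
  rw [ha, hb] at h
  push_cast at h
  have h' : (4 : ℤ) * q = 4 * p1 (a + 1) (b + 1) 1 := by
    unfold p1
    linear_combination h
  omega

lemma T_of_not_mem {q : ℕ} (h : (q : ℤ) ∉ S) : T (4 * q + 1) := by
  refine T_of_primes (by omega) fun p hp hd => ?_
  have hodd : p % 2 = 1 := by
    rcases hp.eq_two_or_odd with rfl | h1
    · omega
    · exact h1
  have h4 : p % 4 = 1 := by
    by_contra h1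
    exact h (mem_S_of_divisor hd (by omega))
  unfold chi
  exact ZMod.χ₄_nat_one_mod_four h4

lemma exceptions_finite (X : ℕ) : (exceptions X).Finite :=
  (Set.finite_Icc 1 X).subset fun _ hq => ⟨hq.1, hq.2.1⟩

lemma card_le (X : ℕ) : ((exceptions X).ncard : ℝ) ≤ B (4 * X + 1) := by
  classical
  rw [← TS_card]
  norm_cast
  have h1 : (exceptions X).ncard = ((fun q : ℕ => 4 * q + 1) '' exceptions X).ncard :=
    (Set.ncard_image_of_injective _ (fun a b hab => by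
      have : 4 * a + 1 = 4 * b + 1 := hab
      omega)).symm
  rw [h1, ← Set.ncard_coe_finset]
  refine Set.ncard_le_ncard ?_ (Finset.finite_toSet _)
  rintro _ ⟨q, hq, rfl⟩
  rw [TS, Finset.mem_coe, Finset.mem_filter, Finset.mem_Ioc]
  refine ⟨⟨by positivity, ?_⟩, T_of_not_mem hq.2.2⟩
  have := hq.2.1
  show 4 * q + 1 ≤ 4 * X + 1
  omega

/-- All but `O(X / √(log X))` of the integers `1 ≤ q ≤ X` lie in `S`. -/
theorem result : ∃ C : ℝ, ∀ X : ℕ, 2 ≤ X →
    ((exceptions X).ncard : ℝ) ≤ C * (X / Real.sqrt (Real.log X)) := by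
  refine ⟨2 * (Real.log 4 + 6) * 5, fun X hX => ?_⟩
  have hX1 : (2 : ℝ) ≤ X := by exact_mod_cast hX
  have hlog : 0 < Real.log X := Real.log_pos (by linarith)
  have hy : (1 : ℝ) ≤ 4 * X + 1 := by linarith
  have h1 := B_bound hy
  have h2 : ⌊(4 * (X : ℝ) + 1)⌋₊ = 4 * X + 1 := by
    have : (4 * (X : ℝ) + 1) = ((4 * X + 1 : ℕ) : ℝ) := by push_cast; ring
    rw [this, Nat.floor_natCast]
  rw [h2] at h1
  refine (card_le X).trans (h1.trans ?_)
  have h4 : 0 ≤ Real.log 4 := Real.log_nonneg (by norm_num)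
  have hs : Real.sqrt (Real.log X) ≤ Real.sqrt (1 + Real.log (4 * X + 1)) := by
    apply Real.sqrt_le_sqrt
    have : Real.log X ≤ Real.log (4 * X + 1) := Real.log_le_log (by linarith) (by linarith)
    linarith
  have hs0 : 0 < Real.sqrt (Real.log X) := Real.sqrt_pos.2 hlog
  have h5 : (4 * (X : ℝ) + 1) / Real.sqrt (1 + Real.log (4 * X + 1)) ≤
      5 * (X / Real.sqrt (Real.log X)) := by
    calc (4 * (X : ℝ) + 1) / Real.sqrt (1 + Real.log (4 * X + 1))
        ≤ (4 * (X : ℝ) + 1) / Real.sqrt (Real.log X) :=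
          div_le_div_of_nonneg_left (by linarith) hs0 hs
      _ ≤ (5 * X) / Real.sqrt (Real.log X) :=
          div_le_div_of_nonneg_right (by linarith) hs0.le
      _ = 5 * (X / Real.sqrt (Real.log X)) := by ring
  calc 2 * (Real.log 4 + 6) * ((4 * (X : ℝ) + 1) / Real.sqrt (1 + Real.log (4 * X + 1)))
      ≤ 2 * (Real.log 4 + 6) * (5 * (X / Real.sqrt (Real.log X))) :=
        mul_le_mul_of_nonneg_left h5 (by positivity)
    _ = 2 * (Real.log 4 + 6) * 5 * (X / Real.sqrt (Real.log X)) := by ring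

end Pool.Agent.Results.MP_ccd64a_nt.FewExceptions
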